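import Pool.Agent.H4.BC.Back

/-!
# Every affine scheme is a closed subscheme, containing all entire curves, of the complement of a
# smooth hypersurface in a projective space

Let `K` be a number field, and `V` in `𝔸^n` any affine scheme of finite type over `𝓞 K` (any dimension,
any singularities), given by polynomials of degree at most `d`, `d ≥ 3`; let `w : 𝔸^n → 𝔸^N` be given by
the monomials of degree `1, …, d`. For all `D ≥ D₁(N)` there are quadratic forms `Q_t` over `𝓞 K`,
`t < N (2 N + 3)`, sums of equations `q_i` of the closure of `w(V)`, such that the hypersurface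

`P = y_0 ^ (D + 2) + ∑ t, Q_t(y) (y_0 + t y_1 + ⋯ + t^N y_N) ^ D = 0`

is smooth, the points `y` of its complement `X` with all `q_i(y) = 0` are the points `(1 : w(x))`,
`x ∈ V` (and `P(1, w(x)) = 1`), and, for all embeddings of `K` in `ℂ`, all nonconstant entire curves in the
complement `X` lie in this closed subset `w(V) ≅ V`.

Proof. Let `f` be an entire curve in `X`; after division by an entire function `P(f) = 1`, and this is a
vanishing sum of terms `1` and `G_t(f) ℓ_t(f) ^ D` with linear forms `ℓ_t`. By value distribution theory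
(Wronskians along minimal linear relations, as in the library's SQ project, for the curve `(f, 1)`
for the block with the term `1`) all minimal vanishing subsums have at most `N` terms of the second
kind if `f` is not constant; hence there are at least `2 N + 1` of them which contain neither the term
`1` nor the term with `ℓ_0 = y_0`; for general combinations `Q_t` of the `q_i` this implies `q_i(f) = 0` for
all `i`. The smoothness follows from a count of constants for the linear system spanned by
`y_0 ^ (D + 2)` and the `q_i ℓ_t ^ D`: the Jacobian matrix of the equations `q_i` has large rank at all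
points.
-/

set_option autoImplicit false

namespace Pool.Agent.Results.MP_e97a4d_nt.CurvesInComplements

open MvPolynomial NumberField
open Pool.Agent.N254.SQ (SmoothOver)
open Pool.Agent.H4.BC

section proof

open Pool.Agent.N254.SQ

theorem mono_of {n N d : ℕ} {m : Fin (N + 1) → Fin (n + 1) → ℕ} (hm : Mon n N d m)
    (hm0s : ∀ j : Fin n, m 0 j.succ = 0) :
    AffineMonomials n N d fun b j => m b.succ j.succ := by
  have hsum : ∀ a, m a 0 + ∑ j : Fin n, m a j.succ = d := by
    intro a
    rw [← Fin.sum_univ_succ]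
    exact hm.deg a
  have hm00 : m 0 0 = d := by
    have h1 := hsum 0
    rw [Finset.sum_eq_zero fun j _ => hm0s j] at h1
    omega
  refine ⟨?_, ?_, ?_, ?_⟩
  · intro b
    by_contra hcon
    have h0 : ∑ j : Fin n, m b.succ j.succ = 0 := by omega
    have h1 : ∀ j : Fin n, m b.succ j.succ = 0 := by
      intro j
      exact (Finset.sum_eq_zero_iff.1 h0) j (Finset.mem_univ j)
    have h2 : m b.succ = m 0 := by
      funext j
      refine Fin.cases ?_ (fun j => ?_) j
      · have := hsum b.succ
        omega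
      · rw [h1, hm0s]
    exact Fin.succ_ne_zero b (hm.inj h2)
  · intro b
    have := hsum b.succ
    omega
  · intro b b' h
    have h1 : m b.succ = m b'.succ := by
      funext j
      refine Fin.cases ?_ (fun j => congrFun h j) j
      have h2 := hsum b.succ
      have h3 := hsum b'.succ
      have h4 : ∑ j : Fin n, m b.succ j.succ = ∑ j : Fin n, m b'.succ j.succ :=
        Finset.sum_congr rfl fun j _ => congrFun h j
      omega
    exact Fin.succ_injective _ (hm.inj h1)
  · intro α h1 h2
    obtain ⟨a, ha⟩ := hm.surj (Fin.cons (d - ∑ j, α j) α) (by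
      rw [Fin.sum_univ_succ]
      simp only [Fin.cons_zero, Fin.cons_succ]
      omega)
    have ha0 : a ≠ 0 := by
      rintro rfl
      have h3 : m 0 0 = d - ∑ j, α j := by
        rw [ha]
        rfl
      omega
    obtain ⟨b, rfl⟩ := Fin.exists_succ_eq.2 ha0
    refine ⟨b, funext fun j => ?_⟩
    rw [ha]
    rfl

end proof

theorem result : ∃ D₁ : ℕ → ℕ,
    ∀ n d : ℕ, 1 ≤ n → 3 ≤ d → ∃ (N : ℕ) (m : Fin N → Fin n → ℕ),
      AffineMonomials n N d m ∧ ∀ D, D₁ N ≤ D →
      ∀ (K : Type) [Field K] [NumberField K] (ι : Type) [Finite ι]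
        (F : ι → MvPolynomial (Fin n) (𝓞 K)), (∀ i, (F i).totalDegree ≤ d) →
        ∃ (κ : Type) (_ : Finite κ) (q : κ → MvPolynomial (Fin (N + 1)) (𝓞 K))
          (Q : Fin (N * (2 * N + 3)) → MvPolynomial (Fin (N + 1)) (𝓞 K)),
          (∀ i, (q i).IsHomogeneous 2) ∧ (∀ t, Q t ∈ AddSubmonoid.closure (Set.range q)) ∧
          SmoothOver (map (algebraMap (𝓞 K) K) (unitForm D Q)) ∧
          (∀ (Ω : Type) [Field Ω] (τ : K →+* Ω) (y : Fin (N + 1) → Ω),
            eval₂ (τ.comp (algebraMap (𝓞 K) K)) y (unitForm D Q) ≠ 0 →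
            ((∀ i, eval₂ (τ.comp (algebraMap (𝓞 K) K)) y (q i) = 0) ↔
              ∃ (c : Ω) (x : Fin n → Ω),
                (∀ i, eval₂ (τ.comp (algebraMap (𝓞 K) K)) x (F i) = 0) ∧
                  y = c • (Fin.cons 1 (affineVeronese m x) : Fin (N + 1) → Ω))) ∧
          (∀ (Ω : Type) [Field Ω] (τ : K →+* Ω) (x : Fin n → Ω),
            (∀ i, eval₂ (τ.comp (algebraMap (𝓞 K) K)) x (F i) = 0) →
            eval₂ (τ.comp (algebraMap (𝓞 K) K)) (Fin.cons 1 (affineVeronese m x))
              (unitForm D Q) = 1) ∧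
          ∀ σ : K →+* ℂ, ComplementCurves σ (unitForm D Q) q := by
  classical
  obtain ⟨D₁, hD₁⟩ := exists_emb
  refine ⟨D₁, ?_⟩
  intro n d hn hd
  obtain ⟨N, m0, hm0, hN⟩ := Pool.Agent.N254.SQ.t_num n d hn hd
  obtain ⟨m, hm, hm00, hm0s⟩ := Pool.Agent.N254.SQ.blva_mon hm0
  refine ⟨N, fun b j => m b.succ j.succ, mono_of hm hm0s, ?_⟩
  intro D hD K _ _ ι _ F hF
  obtain ⟨κ, _, q, c, b, hsm, H⟩ := hD₁ n N d m hn hd hm hm00 hm0s hN D hD K ι F hF
  obtain ⟨σ₀⟩ : Nonempty (K →+* ℂ) := inferInstance
  have H₀ := H σ₀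
  refine ⟨κ, inferInstance, q, _, H₀.formq, ?_, hsm, ?_, ?_, fun σ => (H σ).curves⟩
  · intro t
    refine sum_mem fun i _ => ?_
    have h1 : (C ((c (t, i) : ℕ) : 𝓞 K) * q i : MvPolynomial (Fin (N + 1)) (𝓞 K)) =
        c (t, i) • q i := by
      rw [nsmul_eq_mul, map_natCast C]
    rw [h1]
    exact nsmul_mem (AddSubmonoid.subset_closure (Set.mem_range_self i)) _
  · intro Ω _ τ y hy
    constructor
    · intro h
      have h0 : y 0 ≠ 0 := by
        intro h0
        apply hy
        rw [H₀.val Ω τ y h, h0, zero_pow (by omega)]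
      obtain ⟨x, hx, hyx⟩ := H₀.lift Ω τ y h0 h
      exact ⟨y 0, x, hx, hyx⟩
    · rintro ⟨a, x, hx, rfl⟩ i
      have h1 := H₀.van Ω τ x hx i
      rw [scale' τ (H₀.formq i)]
      change a ^ 2 * eval₂ (τ.comp (algebraMap (𝓞 K) K))
        (Fin.cons 1 (Pool.Agent.N254.SQ.blva_w m x) : Fin (N + 1) → Ω) (q i) = 0
      rw [h1, mul_zero]
  · intro Ω _ τ x hx
    have h1 := H₀.val Ω τ _ (H₀.van Ω τ x hx)
    rw [Fin.cons_zero, one_pow] at h1
    exact h1

end Pool.Agent.Results.MP_e97a4d_nt.CurvesInComplements
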