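import Pool.Agent.H4.BC.Back

/-!
# The Bombieri–Lang–Vojta conjecture for affine schemes is a question on complements of smooth
# hypersurfaces in projective spaces

Let `K` be a number field. For quadratic forms `Q_t` in `N + 1` variables over `𝓞 K`, `t < N (2 N + 3)`, and
`D ≥ 0` consider the form of degree `D + 2`

`P = y_0 ^ (D + 2) + ∑ t, Q_t(y) (y_0 + t y_1 + ⋯ + t^N y_N) ^ D`

and the complement `X = P^N ∖ V(P)` over `𝓞 K` of the hypersurface `P = 0`.

The equivalence of (i) and (ii) (all nonconstant entire curves in `V` lie in `V'`; the sets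
`V(O_S) ∖ V'(O_S)` are finite) for all affine schemes `V` of finite type over `𝓞 K` (any dimension, any
singularities) and all closed subschemes `V'` is equivalent to the same statement for all complements
`X` of smooth hypersurfaces of the above form, with `D` in any given infinite set, and all closed
subschemes of `X`. The same holds for the implication from (i) to (ii).

Proof. By the hand-in `CurvesInComplements`, every `V` is isomorphic to a closed subscheme `w(V)` of such
a complement `X`, in which all nonconstant entire curves of `X` lie. So condition (i) holds for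
`(X, w(V))`, (ii) gives the finiteness of `X(O_S) ∖ w(V)(O_S)`, and the conditions for `(V, V')` and for
`(X, w(V'))` are equivalent. Conversely the complement of a hypersurface of degree `e` is an affine
scheme by the Veronese map of degree `e`, and the conditions (i) and (ii) do not change.
-/

set_option autoImplicit false

namespace Pool.Agent.Results.MP_e97a4d_nt.SmoothComplementsSuffice

open MvPolynomial NumberField
open Pool.Agent.N254.SQ (SmoothOver)
open Pool.Agent.H4.BC

theorem result : ∃ D₁ : ℕ → ℕ,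
    ∀ (K : Type) [Field K] [NumberField K] (σ : K →+* ℂ) (E : Set ℕ), E.Infinite →
      ((∀ (n : ℕ) (ι κ : Type) [Finite ι] (F : ι → MvPolynomial (Fin n) (𝓞 K))
          (G : κ → MvPolynomial (Fin n) (𝓞 K)), AffineCurves σ F G → AffinePoints F G) ↔
        ∀ (N D : ℕ) (Q : Fin (N * (2 * N + 3)) → MvPolynomial (Fin (N + 1)) (𝓞 K)), D ∈ E →
          D₁ N ≤ D → (∀ t, (Q t).IsHomogeneous 2) →
          SmoothOver (map (algebraMap (𝓞 K) K) (unitForm D Q)) →
          ∀ (τ : Type) (G : τ → MvPolynomial (Fin (N + 1)) (𝓞 K)),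
            (∀ l, ∃ e, (G l).IsHomogeneous e) →
            ComplementCurves σ (unitForm D Q) G → ComplementPoints (unitForm D Q) G) ∧
      ((∀ (n : ℕ) (ι κ : Type) [Finite ι] (F : ι → MvPolynomial (Fin n) (𝓞 K))
          (G : κ → MvPolynomial (Fin n) (𝓞 K)), AffineCurves σ F G ↔ AffinePoints F G) ↔
        ∀ (N D : ℕ) (Q : Fin (N * (2 * N + 3)) → MvPolynomial (Fin (N + 1)) (𝓞 K)), D ∈ E →
          D₁ N ≤ D → (∀ t, (Q t).IsHomogeneous 2) →
          SmoothOver (map (algebraMap (𝓞 K) K) (unitForm D Q)) →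
          ∀ (τ : Type) (G : τ → MvPolynomial (Fin (N + 1)) (𝓞 K)),
            (∀ l, ∃ e, (G l).IsHomogeneous e) →
            (ComplementCurves σ (unitForm D Q) G ↔ ComplementPoints (unitForm D Q) G)) := by
  classical
  obtain ⟨D₁, hD₁⟩ := exists_emb
  refine ⟨D₁, ?_⟩
  intro K _ _ σ E hE
  -- an affine scheme in the complement of a hypersurface
  have fwd : ∀ (n : ℕ) (ι κ : Type) [Finite ι] (F : ι → MvPolynomial (Fin n) (𝓞 K))
      (G : κ → MvPolynomial (Fin n) (𝓞 K)), 1 ≤ n →
      ∃ (N D : ℕ) (Q : Fin (N * (2 * N + 3)) → MvPolynomial (Fin (N + 1)) (𝓞 K)) (κ₀ : Type)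
        (q : κ₀ → MvPolynomial (Fin (N + 1)) (𝓞 K)) (b : Fin n → Fin N),
        D ∈ E ∧ D₁ N ≤ D ∧ (∀ t, (Q t).IsHomogeneous 2) ∧
        SmoothOver (map (algebraMap (𝓞 K) K) (unitForm D Q)) ∧
        (∀ i, (q i).IsHomogeneous 2) ∧ (∀ l, ∃ e, (imForms b q G l).IsHomogeneous e) ∧
        ComplementCurves σ (unitForm D Q) q ∧
        (AffineCurves σ F G ↔ ComplementCurves σ (unitForm D Q) (imForms b q G)) ∧
        (ComplementPoints (unitForm D Q) (imForms b q G) ↔
          ComplementPoints (unitForm D Q) q ∧ AffinePoints F G) := by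
    intro n ι κ _ F G hn
    obtain ⟨d, hd3, hd⟩ : ∃ d, 3 ≤ d ∧ ∀ i, (F i).totalDegree ≤ d := by
      cases nonempty_fintype ι
      exact ⟨max 3 (Finset.univ.sup fun i => (F i).totalDegree), le_max_left _ _, fun i =>
        (Finset.le_sup (f := fun i => (F i).totalDegree) (Finset.mem_univ i)).trans
          (le_max_right _ _)⟩
    obtain ⟨N, m0, hm0, hN⟩ := Pool.Agent.N254.SQ.t_num n d hn hd3
    obtain ⟨m, hm, hm00, hm0s⟩ := Pool.Agent.N254.SQ.blva_mon hm0
    obtain ⟨D, hDE, hD⟩ := hE.exists_gt (D₁ N)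
    obtain ⟨κ₀, _, q, c, b, hsm, H⟩ := hD₁ n N d m hn hd3 hm hm00 hm0s hN D hD.le K ι F hd
    refine ⟨N, D, _, κ₀, q, b, hDE, hD.le, ?_, hsm, (H σ).formq, imForms_form (H σ) G,
      (H σ).curves, emb_curves (H σ) G, emb_points (H σ) G⟩
    intro t
    refine IsHomogeneous.sum _ _ _ fun i _ => ?_
    have := (isHomogeneous_C (Fin (N + 1)) (c (t, i) : 𝓞 K)).mul ((H σ).formq i)
    rwa [zero_add] at this
  -- dimension zero
  have zero : ∀ (ι κ : Type) (F : ι → MvPolynomial (Fin 0) (𝓞 K))
      (G : κ → MvPolynomial (Fin 0) (𝓞 K)), AffineCurves σ F G ∧ AffinePoints F G := by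
    intro ι κ F G
    constructor
    · intro f _ _ hne
      obtain ⟨z, w, hzw⟩ := hne
      exact absurd (Subsingleton.elim _ _) hzw
    · intro L _ _ _ S _
      exact Set.Subsingleton.finite (fun x _ y _ => Subsingleton.elim x y)
  constructor
  · constructor
    · intro h N D Q _ _ hQ _ τ G hG hc
      obtain ⟨M, ι, _, F', G', h1, h2⟩ := back N (D + 2) (by omega) (unitForm D Q)
        (unitForm_hom hQ) τ G hG
      exact h2.1 (h M ι τ F' G' ((h1 σ).2 hc))
    · intro h n ι κ _ F G hc
      rcases Nat.eq_zero_or_pos n with rfl | hn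
      · exact (zero ι κ F G).2
      · obtain ⟨N, D, Q, κ₀, q, b, hDE, hD, hQ, hsm, hq, him, hcur, e1, e2⟩ :=
          fwd n ι κ F G hn
        exact (e2.1 (h N D Q hDE hD hQ hsm _ _ him (e1.1 hc))).2
  · constructor
    · intro h N D Q _ _ hQ _ τ G hG
      obtain ⟨M, ι, _, F', G', h1, h2⟩ := back N (D + 2) (by omega) (unitForm D Q)
        (unitForm_hom hQ) τ G hG
      exact (h1 σ).symm.trans ((h M ι τ F' G').trans h2)
    · intro h n ι κ _ F G
      rcases Nat.eq_zero_or_pos n with rfl | hn
      · exact ⟨fun _ => (zero ι κ F G).2, fun _ => (zero ι κ F G).1⟩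
      · obtain ⟨N, D, Q, κ₀, q, b, hDE, hD, hQ, hsm, hq, him, hcur, e1, e2⟩ :=
          fwd n ι κ F G hn
        have h3 := (h N D Q hDE hD hQ hsm _ q fun i => ⟨2, hq i⟩).1 hcur
        have h4 := h N D Q hDE hD hQ hsm _ _ him
        rw [e1, h4, e2]
        exact ⟨fun h5 => h5.2, fun h5 => ⟨h3, h5⟩⟩

end Pool.Agent.Results.MP_e97a4d_nt.SmoothComplementsSuffice
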